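import Pool.Agent.helper36.PT.Spec

/-! # Project PT (MP_ad8ced_nt), row WTC -/

set_option autoImplicit false

namespace Pool.Agent.PT

open Finset Pool.Agent.helper71.AA

theorem WTC_term (X L s : ℝ) (q : ℕ) (hX : 1 < X) (hq : 0 < q) (hs : s = X ^ L / q) :
    (1 - Real.log q / (0.47 * Real.log X)) / q * (Real.log X / Real.log s) =
      (1 - (Real.log q / Real.log X) / 0.47) / (L - Real.log q / Real.log X) / (q : ℝ) := by
  have hL : 0 < Real.log X := Real.log_pos hX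
  have hq' : (0 : ℝ) < q := by exact_mod_cast hq
  have hX0 : (0 : ℝ) < X := by linarith
  obtain ⟨t, ht⟩ : ∃ t, t = Real.log q / Real.log X := ⟨_, rfl⟩
  have hlq : Real.log q = t * Real.log X := by
    rw [ht, div_mul_cancel₀ _ hL.ne']
  have hD : Real.log s = (L - t) * Real.log X := by
    rw [hs, Real.log_div (Real.rpow_pos_of_pos hX0 _).ne' hq'.ne', Real.log_rpow hX0, hlq]
    ring
  have e1 : Real.log X / Real.log s = 1 / (L - t) := by
    rw [hD, div_mul_eq_div_div_swap, div_self hL.ne']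
  have e2 : Real.log q / (0.47 * Real.log X) = t / 0.47 := by
    rw [hlq, mul_div_mul_right _ _ hL.ne']
  rw [e1, e2, ← ht]
  ring

theorem WTC (h1 : MPS_stmt) : WTC_stmt := by
  intro eps heps
  have c1 : ContinuousOn (fun t : ℝ => (1 - t / 0.47) / (0.553 - t)) (Set.Icc 0.13825 0.445) := by
    refine ContinuousOn.div ?_ ?_ ?_
    · exact (continuous_const.sub (continuous_id.div_const _)).continuousOn
    · exact (continuous_const.sub continuous_id).continuousOn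
    · intro t ht
      have := ht.2
      norm_num at this ⊢
      linarith
  have c2 : ContinuousOn (fun t : ℝ => (1 - t / 0.47) / (0.499 - t)) (Set.Icc 0.445 0.47) := by
    refine ContinuousOn.div ?_ ?_ ?_
    · exact (continuous_const.sub (continuous_id.div_const _)).continuousOn
    · exact (continuous_const.sub continuous_id).continuousOn
    · intro t ht
      have := ht.2
      norm_num at this ⊢
      linarith
  have t1 := h1 0.13825 0.445 _ (by norm_num) (by norm_num) c1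
  have t2 := h1 0.445 0.47 _ (by norm_num) (by norm_num) c2
  have t3 := t1.add t2
  have ev := (tendsto_order.1 t3).2 (JJ + eps) (by
    unfold JJ
    linarith)
  obtain ⟨X₀, hX₀⟩ := Filter.eventually_atTop.1 (ev.and (Filter.eventually_gt_atTop (1 : ℝ)))
  refine ⟨X₀, fun X hX η hη hη' => ?_⟩
  obtain ⟨hs, hX1⟩ := hX₀ X hX
  have hX0 : (0 : ℝ) ≤ X := by linarith
  refine le_trans (le_of_eq ?_) hs.le
  have hmono : ∀ a b : ℝ, a ≤ b → X ^ a ≤ X ^ b := fun a b h =>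
    Real.rpow_le_rpow_of_exponent_le hX1.le h
  have hset : (Ql X η).filter (fun q : ℕ => X ^ (0.13825 : ℝ) < (q : ℝ)) =
      (Ioc ⌊X ^ (0.13825 : ℝ)⌋₊ ⌊X ^ (0.445 : ℝ)⌋₊).filter Nat.Prime ∪
        (Ioc ⌊X ^ (0.445 : ℝ)⌋₊ ⌊X ^ (0.47 : ℝ)⌋₊).filter Nat.Prime := by
    ext q
    have e1 : X ^ (0.13825 : ℝ) < (q : ℝ) ↔ ⌊X ^ (0.13825 : ℝ)⌋₊ < q :=
      (Nat.floor_lt (Real.rpow_nonneg hX0 _)).symm
    have e2 : ⌊X ^ η⌋₊ ≤ ⌊X ^ (0.13825 : ℝ)⌋₊ := Nat.floor_mono (hmono _ _ (by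
      norm_num at hη' ⊢
      linarith))
    have e3 : ⌊X ^ (0.13825 : ℝ)⌋₊ ≤ ⌊X ^ (0.445 : ℝ)⌋₊ :=
      Nat.floor_mono (hmono _ _ (by norm_num))
    have e4 : ⌊X ^ (0.445 : ℝ)⌋₊ ≤ ⌊X ^ (0.47 : ℝ)⌋₊ :=
      Nat.floor_mono (hmono _ _ (by norm_num))
    simp only [Ql, Qs, mem_filter, mem_union, mem_Ioc, e1]
    constructor
    · rintro ⟨⟨⟨h1, h2⟩, h3⟩, h4⟩
      by_cases h5 : q ≤ ⌊X ^ (0.445 : ℝ)⌋₊
      · exact Or.inl ⟨⟨h4, h5⟩, h3⟩
      · exact Or.inr ⟨⟨by omega, h2⟩, h3⟩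
    · rintro (⟨⟨h1, h2⟩, h3⟩ | ⟨⟨h1, h2⟩, h3⟩)
      · exact ⟨⟨⟨by omega, by omega⟩, h3⟩, h1⟩
      · exact ⟨⟨⟨by omega, by omega⟩, h3⟩, by omega⟩
  have hdis : Disjoint ((Ioc ⌊X ^ (0.13825 : ℝ)⌋₊ ⌊X ^ (0.445 : ℝ)⌋₊).filter Nat.Prime)
      ((Ioc ⌊X ^ (0.445 : ℝ)⌋₊ ⌊X ^ (0.47 : ℝ)⌋₊).filter Nat.Prime) := by
    rw [Finset.disjoint_left]
    intro q h1 h2
    simp only [mem_filter, mem_Ioc] at h1 h2
    omega
  rw [hset, sum_union hdis]
  refine congrArg₂ (· + ·) ?_ ?_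
  · refine sum_congr rfl fun q hq => ?_
    simp only [mem_filter, mem_Ioc] at hq
    have hle : (q : ℝ) ≤ X ^ (0.445 : ℝ) :=
      (Nat.cast_le.2 hq.1.2).trans (Nat.floor_le (Real.rpow_nonneg hX0 _))
    exact WTC_term X 0.553 _ q hX1 (by omega) (by rw [Dq, if_pos hle])
  · refine sum_congr rfl fun q hq => ?_
    simp only [mem_filter, mem_Ioc] at hq
    have hlt : ¬ (q : ℝ) ≤ X ^ (0.445 : ℝ) :=
      not_le.2 ((Nat.floor_lt (Real.rpow_nonneg hX0 _)).1 hq.1.1)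
    exact WTC_term X 0.499 _ q hX1 (by omega) (by rw [Dq, if_neg hlt])

end Pool.Agent.PT
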